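import Pool.Agent.NBT.StmtsA

/-!
# NBT squad (MP_e54c4c_gt), row BIN: invariance of the subspaces `B_I`
-/

set_option autoImplicit false

open Matrix Filter Topology

namespace Pool.Agent.NBT.H48

open Pool.Agent.NBT Pool.Agent.PFS Pool.Agent.PFJ

theorem bin (hIbi : IbiStmt) (hTbf : TbfStmt) : BinStmt := by
  intro n C Γ Γ₀ K T c hT w hw
  have hcone : PCone C := hT.cc.toPCone
  have hcl : ∀ w : Fin K → V n, T w → ∀ i, w i ∈ closure C :=
    fun w hw i => (hT.pes w hw).1.cl i
  obtain ⟨i1, i2, -⟩ := hIbi n C Γ hT.cc K w (hcl w hw)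
  refine ⟨i1, ?_, ?_, ?_⟩
  · intro g hg s hs
    refine ⟨?_, i2 g (hT.sub hg) s hs⟩
    exact hT.scl _ (hT.inv w hw g hg) (fun _ => s) (fun _ => hs)
  · intro w' hw' I hI
    obtain ⟨u1, -⟩ := hTbf n C Γ Γ₀ K T c hT w hw
    obtain ⟨u1', -⟩ := hTbf n C Γ Γ₀ K T c hT w' hw'
    have hmem : fS w' I ∈ BI C w I := Submodule.sum_mem _ hI
    obtain ⟨M, hM, hM1, -⟩ := unt_two hcone (u1 I) hmem
    have hle : BI C w' I ≤ BI C w I := by
      intro v hv
      obtain ⟨M', hM', h1, h2⟩ := unt_two hcone (u1' I) hv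
      refine fce hcone (hcl w hw) (M := M' * M) ?_ ?_
      · have h3 : (M' * M) • fS w I - v
            = M' • (M • fS w I - fS w' I) + (M' • fS w' I - v) := by
          rw [smul_sub, smul_smul]; abel
        rw [h3]; exact hcone.cl_add (hcone.cl_smul hM1 hM'.le) h1
      · have h3 : (M' * M) • fS w I + v
            = M' • (M • fS w I - fS w' I) + (M' • fS w' I + v) := by
          rw [smul_sub, smul_smul]; abel
        rw [h3]; exact hcone.cl_add (hcone.cl_smul hM1 hM'.le) h2
    exact Submodule.eq_of_le_of_finrank_eq hle (by rw [hT.dim w' hw' I, hT.dim w hw I])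
  · intro k x I hk
    unfold BI
    rw [fS_update w k x hk]

end Pool.Agent.NBT.H48
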